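import Pool.Agent.W626.FR.Stms

/-!
# The law of a closure only depends on the one-point probabilities (`TaskClos`)
-/

open MeasureTheory ProbabilityTheory Filter FrogGW FrogRec
open scoped ENNReal NNReal Classical Topology

namespace Pool.Agent.W160.FR

section clo
variable {L : Type} [Fintype L] [DecidableEq L] {T : Finset L → L → Prop} {U0 : Finset L}

lemma sub_clo : U0 ⊆ clo T U0 := by
  intro z hz
  simp only [clo, Finset.mem_filter, Finset.mem_univ, true_and]
  intro U hU _
  exact hU hz

lemma clo_sub {U : Finset L} (h0 : U0 ⊆ U) (h1 : ∀ y, T U y → y ∈ U) : clo T U0 ⊆ U := by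
  intro z hz
  simp only [clo, Finset.mem_filter, Finset.mem_univ, true_and] at hz
  exact hz U h0 h1

lemma clo_closed (hT : ∀ U U' y, U ⊆ U' → T U y → T U' y) {y : L} (h : T (clo T U0) y) :
    y ∈ clo T U0 := by
  simp only [clo, Finset.mem_filter, Finset.mem_univ, true_and]
  intro U h0 h1
  exact h1 y (hT _ _ y (clo_sub h0 h1) h)

lemma clo_one (z : L) (hT : ∀ U U' y, U ⊆ U' → T U y → T U' y) (U0 : Finset L) :
    clo T U0 = if T (clo (fun U y => y ≠ z ∧ T U y) U0) z
      then clo (fun U y => y ≠ z ∧ T U y) (insert z U0)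
      else clo (fun U y => y ≠ z ∧ T U y) U0 := by
  set T0 : Finset L → L → Prop := fun U y => y ≠ z ∧ T U y with hT0
  have hm : ∀ U U' y, U ⊆ U' → T0 U y → T0 U' y := fun U U' y h h' => ⟨h'.1, hT _ _ _ h h'.2⟩
  split_ifs with h
  · apply subset_antisymm
    · refine clo_sub ((Finset.subset_insert _ _).trans sub_clo) ?_
      intro y hy
      by_cases hyz : y = z
      · subst hyz
        exact sub_clo (Finset.mem_insert_self _ _)
      · exact clo_closed hm ⟨hyz, hy⟩
    · have h1 : clo T0 U0 ⊆ clo T U0 := clo_sub sub_clo (fun y hy => clo_closed hT hy.2)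
      refine clo_sub ?_ (fun y hy => clo_closed hT hy.2)
      refine Finset.insert_subset ?_ sub_clo
      exact clo_closed hT (hT _ _ _ h1 h)
  · apply subset_antisymm
    · refine clo_sub sub_clo ?_
      intro y hy
      by_cases hyz : y = z
      · subst hyz
        exact absurd hy h
      · exact clo_closed hm ⟨hyz, hy⟩
    · exact clo_sub sub_clo (fun y hy => clo_closed hT hy.2)

end clo

section meas
variable {L : Type} [Fintype L] [DecidableEq L] {X : L → Type} [∀ z, MeasurableSpace (X z)]

omit [Fintype L] [DecidableEq L] in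
lemma meas_F (H : ∀ z, Finset L → Set (X z)) (hH : ∀ z U, MeasurableSet (H z U)) :
    Measurable (fun (ω : ∀ z, X z) (q : Finset L × L) => (ω q.2 ∈ H q.2 q.1)) := by
  refine measurable_pi_lambda _ (fun q => ?_)
  have : MeasurableSet {ω : ∀ z, X z | ω q.2 ∈ H q.2 q.1} := (measurable_pi_apply q.2) (hH q.2 q.1)
  exact this.mem

omit [DecidableEq L] in
lemma meas_G (G : (Finset L × L → Prop) → ℝ≥0∞) : Measurable G := by
  have : Finite (Finset L × L → Prop) := inferInstance
  have : MeasurableSingletonClass (Finset L × L → Prop) := inferInstance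
  exact measurable_of_finite G

lemma meas_clo (H : ∀ z, Finset L → Set (X z)) (hH : ∀ z U, MeasurableSet (H z U)) (U0 : Finset L)
    (f : Finset L → ℝ≥0∞) :
    Measurable fun ω : ∀ z, X z => f (clo (fun U y => ω y ∈ H y U) U0) := by
  have h2 := meas_G (fun b : Finset L × L → Prop => f (clo (fun U y => b (U, y)) U0))
  have h3 := h2.comp (meas_F H hH)
  simpa only [Function.comp_def] using h3

lemma one_coord (P : ∀ z, Measure (X z)) [∀ z, IsProbabilityMeasure (P z)]
    (H H' : ∀ z, Finset L → Set (X z)) (hH : ∀ z U, MeasurableSet (H z U))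
    (hH' : ∀ z U, MeasurableSet (H' z U)) (hm : ∀ z, Monotone (H z)) (hm' : ∀ z, Monotone (H' z))
    (z : L) (he : ∀ y, y ≠ z → H y = H' y) (hp : ∀ U, P z (H z U) = P z (H' z U))
    (U0 : Finset L) (f : Finset L → ℝ≥0∞) :
    ∫⁻ ω, f (clo (fun U y => ω y ∈ H y U) U0) ∂(Measure.pi P) =
      ∫⁻ ω, f (clo (fun U y => ω y ∈ H' y U) U0) ∂(Measure.pi P) := by
  refine lintegral_eq_of_lmarginal_eq {z} (meas_clo H hH U0 f) (meas_clo H' hH' U0 f) ?_
  funext ω
  rw [lmarginal_singleton, lmarginal_singleton]
  beta_reduce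
  have key : ∀ (K : ∀ z, Finset L → Set (X z)), (∀ z, Monotone (K z)) →
      (∀ U, MeasurableSet (K z U)) → ∀ V W : Finset L,
      V = clo (fun U y => y ≠ z ∧ ω y ∈ K y U) U0 →
      W = clo (fun U y => y ≠ z ∧ ω y ∈ K y U) (insert z U0) →
      ∫⁻ x, f (clo (fun U y => Function.update ω z x y ∈ K y U) U0) ∂(P z) =
        f W * P z (K z V) + f V * (1 - P z (K z V)) := by
    intro K hK hmeas V W hV hW
    have e : ∀ x, f (clo (fun U y => Function.update ω z x y ∈ K y U) U0)
        = (K z V).indicator (fun _ => f W) x + (K z V)ᶜ.indicator (fun _ => f V) x := by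
      intro x
      have hmono : ∀ (U U' : Finset L) y, U ⊆ U' → Function.update ω z x y ∈ K y U →
          Function.update ω z x y ∈ K y U' := fun U U' y h h' => hK y h h'
      have e1 : (fun (U : Finset L) y => y ≠ z ∧ Function.update ω z x y ∈ K y U)
          = fun (U : Finset L) y => y ≠ z ∧ ω y ∈ K y U := by
        funext U y
        by_cases hy : y = z
        · simp [hy]
        · simp [hy]
      rw [clo_one z hmono U0, e1, ← hV, ← hW]
      by_cases hx : x ∈ K z V
      · simp [hx]
      · simp [hx]
    simp_rw [e]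
    rw [lintegral_add_left (measurable_const.indicator (hmeas V)), lintegral_indicator (hmeas V),
      lintegral_indicator (hmeas V).compl, setLIntegral_const, setLIntegral_const,
      prob_compl_eq_one_sub (hmeas V)]
  have eT : (fun (U : Finset L) y => y ≠ z ∧ ω y ∈ H y U)
      = fun (U : Finset L) y => y ≠ z ∧ ω y ∈ H' y U := by
    funext U y
    by_cases hy : y = z
    · simp [hy]
    · rw [he y hy]
  rw [key H hm (hH z) _ _ rfl rfl, key H' hm' (hH' z) _ _ rfl rfl, eT, hp]

end meas

theorem clos : TaskClos := by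
  intro L _ _ Ω Ω' _ _ P P' _ _ H H' hH hH' hm hm' hp U0 f
  set HS : Finset L → ∀ z, Finset L → Set (Ω z × Ω' z) := fun S z U =>
    if z ∈ S then Prod.snd ⁻¹' (H' z U) else Prod.fst ⁻¹' (H z U) with hHS
  have hmeas : ∀ S z U, MeasurableSet (HS S z U) := by
    intro S z U
    simp only [hHS]
    split_ifs
    · exact measurable_snd (hH' z U)
    · exact measurable_fst (hH z U)
  have hmon : ∀ S z, Monotone (HS S z) := by
    intro S z U U' h
    simp only [hHS]
    split_ifs
    · exact Set.preimage_mono (hm' z h)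
    · exact Set.preimage_mono (hm z h)
  have main : ∀ S : Finset L,
      ∫⁻ ω, f (clo (fun U y => ω y ∈ HS ∅ y U) U0) ∂(Measure.pi fun z => (P z).prod (P' z)) =
        ∫⁻ ω, f (clo (fun U y => ω y ∈ HS S y U) U0) ∂(Measure.pi fun z => (P z).prod (P' z)) := by
    intro S
    induction S using Finset.induction_on with
    | empty => rfl
    | insert z S hz ih =>
      rw [ih]
      refine one_coord _ _ _ (hmeas S) (hmeas _) (hmon S) (hmon _) z ?_ ?_ U0 f
      · intro y hy
        funext U
        simp only [hHS, Finset.mem_insert, hy, false_or]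
      · intro U
        simp only [hHS, hz, Finset.mem_insert_self, if_true, if_false]
        rw [← Measure.map_apply measurable_fst (hH z U), ← Measure.map_apply measurable_snd (hH' z U)]
        simp [hp]
  have p1 : MeasurePreserving (fun (ω : ∀ z, Ω z × Ω' z) z => (ω z).1)
      (Measure.pi fun z => (P z).prod (P' z)) (Measure.pi P) :=
    measurePreserving_pi (fun z => (P z).prod (P' z)) P (fun z => measurePreserving_fst)
  have p2 : MeasurePreserving (fun (ω : ∀ z, Ω z × Ω' z) z => (ω z).2)
      (Measure.pi fun z => (P z).prod (P' z)) (Measure.pi P') :=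
    measurePreserving_pi (fun z => (P z).prod (P' z)) P' (fun z => measurePreserving_snd)
  rw [← p1.lintegral_comp (meas_clo H hH U0 f), ← p2.lintegral_comp (meas_clo H' hH' U0 f)]
  have := main Finset.univ
  simpa [hHS] using this

end Pool.Agent.W160.FR
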