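import Pool.Agent.W626.FR.Stms

/-!
# Poisson thinning (`TaskPoi`)
-/

open MeasureTheory ProbabilityTheory Filter FrogGW FrogRec
open scoped ENNReal NNReal Classical Topology

namespace Pool.Agent.W160.FR

lemma poi_gf (lam : ℝ≥0) (p : ℝ≥0∞) (hp : p ≤ 1) :
    ∫⁻ n, p ^ n ∂(poissonMeasure lam) =
      ENNReal.ofReal (Real.exp (-((lam : ℝ) * (1 - p.toReal)))) := by
  have hpt : p ≠ ∞ := ne_top_of_le_ne_top ENNReal.one_ne_top hp
  rw [lintegral_countable']
  have e : ∀ n : ℕ, p ^ n * poissonMeasure lam {n} =
      ENNReal.ofReal (Real.exp (-(lam : ℝ)) * (((lam : ℝ) * p.toReal) ^ n / (n.factorial : ℝ))) := by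
    intro n
    rw [poissonMeasure_singleton]
    have : p ^ n = ENNReal.ofReal (p.toReal ^ n) := by
      rw [ENNReal.ofReal_pow ENNReal.toReal_nonneg, ENNReal.ofReal_toReal hpt]
    rw [this, ← ENNReal.ofReal_mul (pow_nonneg ENNReal.toReal_nonneg _)]
    congr 1
    rw [mul_pow]
    ring
  simp_rw [e]
  have hs := (NormedSpace.expSeries_div_hasSum_exp ((lam : ℝ) * p.toReal)).mul_left (Real.exp (-(lam : ℝ)))
  rw [← ENNReal.ofReal_tsum_of_nonneg (fun n => by positivity) hs.summable, hs.tsum_eq]
  congr 1
  rw [← Real.exp_eq_exp_ℝ, ← Real.exp_add]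
  congr 1
  ring

lemma meas_ex (C : Set (ℕ → ℝ)) (hC : MeasurableSet C) :
    MeasurableSet {r : Rd | ∃ j < r.1, r.2 j ∈ C} := by
  have : {r : Rd | ∃ j < r.1, r.2 j ∈ C} = ⋃ j : ℕ, ({r : Rd | j < r.1} ∩ {r : Rd | r.2 j ∈ C}) := by
    ext r
    simp
  rw [this]
  refine MeasurableSet.iUnion fun j => MeasurableSet.inter ?_ ?_
  · exact measurable_fst (MeasurableSet.of_discrete : MeasurableSet {n : ℕ | j < n})
  · exact ((measurable_pi_apply j).comp measurable_snd) hC

lemma meas_all (D : Set (ℕ → ℝ)) (hD : MeasurableSet D) :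
    MeasurableSet {r : Rd | ∀ j < r.1, r.2 j ∈ D} := by
  have := (meas_ex Dᶜ hD.compl).compl
  convert this using 1
  ext r
  simp

lemma void_prob (lam : ℝ≥0) (D : Set (ℕ → ℝ)) (hD : MeasurableSet D) :
    vertexLaw lam {r : Rd | ∀ j < r.1, r.2 j ∈ D} = ENNReal.ofReal (Real.exp (-((lam : ℝ) *
      (1 - ((Measure.infinitePi fun _ : ℕ => unif) D).toReal)))) := by
  unfold vertexLaw
  rw [Measure.prod_apply (meas_all D hD), ← poi_gf lam _ prob_le_one]
  refine lintegral_congr fun n => ?_
  have e : (Prod.mk n ⁻¹' {r : Rd | ∀ j < r.1, r.2 j ∈ D}) =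
      Set.pi (Finset.range n : Set ℕ) (fun _ => D) := by
    ext x
    simp
  rw [e, Measure.infinitePi_pi _ (fun _ _ => hD)]
  simp

theorem poi : TaskPoi := by
  intro lam ι _ C hC hdis
  have hmeas : Measurable (fun (r : Rd) (i : ι) => decide (∃ j < r.1, r.2 j ∈ C i)) := by
    refine measurable_pi_lambda _ (fun i => measurable_to_bool ?_)
    have := meas_ex (C i) (hC i)
    convert this using 1
    ext r
    simp
  refine ⟨hmeas, ?_⟩
  symm
  have hgen : ∀ i : ι, MeasurableSpace.generateFrom ({Set.univ, {false}} : Set (Set Bool)) = ⊤ := by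
    intro _
    rw [eq_top_iff]
    intro s _
    have h1 : MeasurableSet[MeasurableSpace.generateFrom ({Set.univ, {false}} : Set (Set Bool))]
        ({false} : Set Bool) := MeasurableSpace.measurableSet_generateFrom (by simp)
    have h2 : MeasurableSet[MeasurableSpace.generateFrom ({Set.univ, {false}} : Set (Set Bool))]
        ({true} : Set Bool) := by
      have := @MeasurableSet.compl _ _ (MeasurableSpace.generateFrom ({Set.univ, {false}} : Set (Set Bool))) h1
      convert this using 1
      ext b; cases b <;> simp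
    have h3 : s = (if false ∈ s then {false} else ∅) ∪ (if true ∈ s then {true} else ∅) := by
      ext b
      cases b <;> by_cases h : (false ∈ s) <;> by_cases h' : (true ∈ s) <;> simp [h, h']
    rw [h3]
    refine @MeasurableSet.union _ (MeasurableSpace.generateFrom ({Set.univ, {false}} : Set (Set Bool)))
      _ _ ?_ ?_
    · split_ifs
      · exact h1
      · exact @MeasurableSet.empty _ (MeasurableSpace.generateFrom ({Set.univ, {false}} : Set (Set Bool)))
    · split_ifs
      · exact h2
      · exact @MeasurableSet.empty _ (MeasurableSpace.generateFrom ({Set.univ, {false}} : Set (Set Bool)))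
  refine Measure.pi_eq_generateFrom (C := fun _ => ({Set.univ, {false}} : Set (Set Bool)))
    hgen ?_ ?_ ?_
  · intro i s hs t ht _
    rcases hs with rfl | hs
    · rw [Set.univ_inter]; exact ht
    · rcases ht with rfl | ht
      · rw [Set.inter_univ]; exact Or.inr hs
      · right
        rw [Set.mem_singleton_iff] at hs ht ⊢
        rw [hs, ht, Set.inter_self]
  · intro i
    exact ⟨fun _ => Set.univ, fun _ => by simp, fun _ => by simp, Set.iUnion_const _⟩
  · intro s hs
    rw [Measure.map_apply hmeas (MeasurableSet.univ_pi fun i => by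
      rcases hs i with h | h
      · rw [h]; exact MeasurableSet.univ
      · rw [h]; exact MeasurableSet.of_discrete)]
    set T : Finset ι := Finset.univ.filter fun i => s i = {false} with hT
    set μ0 : Measure (ℕ → ℝ) := Measure.infinitePi fun _ : ℕ => unif with hμ0
    have e1 : ((fun (r : Rd) (i : ι) => decide (∃ j < r.1, r.2 j ∈ C i)) ⁻¹' Set.pi Set.univ s)
        = {r : Rd | ∀ j < r.1, r.2 j ∈ (⋃ i ∈ T, C i)ᶜ} := by
      ext r
      simp only [Set.mem_preimage, Set.mem_pi, Set.mem_univ, true_implies, Set.mem_ofPred_eq,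
        Set.mem_compl_iff, Set.mem_iUnion, not_exists]
      constructor
      · intro h j hj i hi hmem
        have := h i
        rw [hT, Finset.mem_filter] at hi
        rw [hi.2, Set.mem_singleton_iff, decide_eq_false_iff_not] at this
        exact this ⟨j, hj, hmem⟩
      · intro h i
        rcases hs i with h' | h'
        · rw [h']; trivial
        · rw [h', Set.mem_singleton_iff, decide_eq_false_iff_not]
          rintro ⟨j, hj, hmem⟩
          exact h j hj i (by rw [hT, Finset.mem_filter]; exact ⟨Finset.mem_univ _, h'⟩) hmem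
    have hUm : MeasurableSet (⋃ i ∈ T, C i) := Finset.measurableSet_biUnion T fun i _ => hC i
    rw [e1, void_prob lam _ hUm.compl]
    have e2 : (μ0 (⋃ i ∈ T, C i)ᶜ).toReal = 1 - ∑ i ∈ T, (μ0 (C i)).toReal := by
      have := measureReal_compl (μ := μ0) hUm
      rw [measureReal_def, measureReal_def, measureReal_def, measure_univ,
        measure_biUnion_finset (fun i _ j _ hij => hdis i j hij) (fun i _ => hC i),
        ENNReal.toReal_sum (fun i _ => measure_ne_top _ _)] at this
      simpa using this
    rw [e2]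
    have e3 : ∀ i, bern (lam * (μ0 (C i)).toNNReal) (s i) =
        if i ∈ T then ENNReal.ofReal (Real.exp (-((lam : ℝ) * (μ0 (C i)).toReal))) else 1 := by
      intro i
      by_cases hi : i ∈ T
      · rw [if_pos hi]
        rw [hT, Finset.mem_filter] at hi
        rw [hi.2]
        simp [bern, ENNReal.toReal]
      · rw [if_neg hi]
        rcases hs i with h' | h'
        · rw [h']; exact measure_univ
        · exact absurd (by rw [hT, Finset.mem_filter]; exact ⟨Finset.mem_univ _, h'⟩) hi
    rw [Finset.prod_congr rfl (fun i _ => e3 i), Finset.prod_ite_mem, Finset.univ_inter,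
      ← ENNReal.ofReal_prod_of_nonneg (fun i _ => (Real.exp_pos _).le), ← Real.exp_sum]
    congr 2
    rw [Finset.sum_neg_distrib, ← Finset.mul_sum]
    ring

end Pool.Agent.W160.FR
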